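import Pool.Agent.helper60.MW.Spec

/-!
# Project mw, row SPL
-/

set_option autoImplicit false

namespace Pool.Agent.MW

open MeasureTheory Set Pool.Agent.helper17.Worm

theorem SPL : SPL_stmt := by
  intro X hX hfin g p b q hb
  have h1 : occ X g (sq p (q * b)) =
      ∑ i ∈ Finset.range q, occ X g (rc (p.re + i * b) b p.im (q * b)) := by
    unfold sq
    exact occ_rc_width hX hfin g hb q
  rw [h1]
  refine Finset.sum_congr rfl fun i _ => ?_
  rw [occ_rc_height hX hfin g hb q]
  refine Finset.sum_congr rfl fun j _ => ?_
  have h2 : (sub p b i j).re = p.re + i * b := by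
    unfold sub
    simp
  have h3 : (sub p b i j).im = p.im + j * b := by
    unfold sub
    simp
  unfold sq
  rw [h2, h3]

end Pool.Agent.MW
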